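import Mathlib

namespace Pool.Agent.Results.MP_73c876_an.Atom

open MeasureTheory ProbabilityTheory

lemma bdd_int {X : Type} [MeasurableSpace X] (μ : Measure X) [IsProbabilityMeasure μ]
    (h : X → ℝ) (hm : Measurable h) (C : ℝ) (hb : ∀ x, |h x| ≤ C) : Integrable h μ :=
  Integrable.of_bound hm.aestronglyMeasurable C (Filter.Eventually.of_forall fun x => by
    simpa [Real.norm_eq_abs] using hb x)

lemma var_le {X : Type} [MeasurableSpace X] (μ : Measure X) [IsProbabilityMeasure μ]
    (T : X → X) (hT : MeasurePreserving T μ μ) (g : X → ℝ) (hg : Measurable g)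
    (hb : ∀ x, |g x| ≤ 1) (hc : ∀ n, 1 ≤ n → ∫ x, g x * g (T^[n] x) ∂μ ≤ 0) (N : ℕ) :
    ∫ x, (∑ i ∈ Finset.range N, g (T^[i] x)) ^ 2 ∂μ ≤ N := by
  have hm : ∀ i, Measurable fun x => g (T^[i] x) := fun i => hg.comp (hT.iterate i).measurable
  have hp : ∀ i j, Integrable (fun x => g (T^[i] x) * g (T^[j] x)) μ := fun i j =>
    bdd_int μ _ ((hm i).mul (hm j)) 1 fun x => by
      rw [abs_mul]; exact mul_le_one₀ (hb _) (abs_nonneg _) (hb _)
  have hlt : ∀ i j, i < j → ∫ x, g (T^[i] x) * g (T^[j] x) ∂μ ≤ 0 := by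
    intro i j hij
    obtain ⟨k, rfl⟩ : ∃ k, j = (k + 1) + i := ⟨j - i - 1, by omega⟩
    have h1 := hc (k + 1) (by omega)
    have h2 := integral_map (μ := μ) (hT.iterate i).measurable.aemeasurable
      (f := fun x => g x * g (T^[k+1] x)) (hg.mul (hm (k+1))).aestronglyMeasurable
    rw [(hT.iterate i).map_eq] at h2
    rw [h2] at h1
    simpa only [Function.iterate_add_apply] using h1
  have heq : ∀ i, ∫ x, g (T^[i] x) * g (T^[i] x) ∂μ ≤ 1 := by
    intro i
    have := integral_mono (hp i i) (integrable_const (1:ℝ)) (fun x => by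
      have := hb (T^[i] x); have := abs_le.1 this; simp only; nlinarith)
    simpa using this
  have e : ∀ x, (∑ i ∈ Finset.range N, g (T^[i] x)) ^ 2 =
      ∑ i ∈ Finset.range N, ∑ j ∈ Finset.range N, g (T^[i] x) * g (T^[j] x) := by
    intro x; rw [sq, Finset.sum_mul_sum]
  simp_rw [e]
  rw [integral_finsetSum _ fun i _ => integrable_finsetSum _ fun j _ => hp i j]
  calc _ ≤ ∑ i ∈ Finset.range N, (1:ℝ) := by
        refine Finset.sum_le_sum fun i hi => ?_
        rw [integral_finsetSum _ fun j _ => hp i j, ← Finset.add_sum_erase _ _ hi]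
        have : ∑ j ∈ (Finset.range N).erase i, ∫ x, g (T^[i] x) * g (T^[j] x) ∂μ ≤ 0 := by
          refine Finset.sum_nonpos fun j hj => ?_
          rcases lt_or_gt_of_ne (Finset.ne_of_mem_erase hj) with h | h
          · have := hlt j i h
            simpa only [mul_comm] using this
          · exact hlt i j h
        linarith [heq i]
    _ = N := by simp

noncomputable def ν0 : Measure (Fin 3) := (1/2 : ENNReal) • Measure.dirac 0 + (1/2 : ENNReal) • Measure.dirac 2

instance : IsProbabilityMeasure ν0 := ⟨by simp [ν0, ENNReal.inv_two_add_inv_two]⟩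

noncomputable def ν : Measure (ℤ → Fin 3) := Measure.infinitePi fun _ => ν0

instance : IsProbabilityMeasure ν := by unfold ν; infer_instance

def T (x : ℤ → Fin 3) : ℤ → Fin 3 := fun i => x (i + 1)

def p : ℤ → Fin 3 := fun _ => 1

noncomputable def μ : Measure (ℤ → Fin 3) := (1/2 : ENNReal) • ν + (1/2 : ENNReal) • Measure.dirac p

instance : IsProbabilityMeasure μ := ⟨by simp [μ, ENNReal.inv_two_add_inv_two]⟩

lemma mT : Measurable T := by unfold T; fun_prop

lemma ind : iIndepFun (fun (i : ℤ) (ω : ℤ → Fin 3) => ω i) ν :=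
  iIndepFun_infinitePi (X := fun _ x => x) (fun _ => measurable_id)

lemma mapν : ν.map T = ν := by
  have h := (ind.precomp (g := fun i : ℤ => i + 1) (fun a b h => by simpa using h)).map_fun_eq_infinitePi_map
    (fun i => measurable_pi_apply _)
  have h2 : ∀ i : ℤ, ν.map (fun ω : ℤ → Fin 3 => ω (i + 1)) = ν0 := fun i =>
    Measure.infinitePi_map_eval (fun _ => ν0) (i + 1)
  simp only [h2] at h
  exact h

lemma mp : MeasurePreserving T μ μ := ⟨mT, by
  unfold μ
  rw [Measure.map_add _ _ mT, Measure.map_smul, Measure.map_smul, mapν, Measure.map_dirac' mT]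
  rfl⟩

lemma bijT : Function.Bijective T :=
  ⟨fun x y h => funext fun i => by simpa [T] using congrFun h (i - 1),
    fun y => ⟨fun i => y (i - 1), funext fun i => by simp [T]⟩⟩

lemma iter (n : ℕ) (x : ℤ → Fin 3) (i : ℤ) : T^[n] x i = x (i + n) := by
  induction n generalizing i with
  | zero => simp
  | succ n ih => rw [Function.iterate_succ_apply', T, ih]; congr 1; push_cast; ring

lemma intμ (h : (ℤ → Fin 3) → ℝ) (hm : Measurable h) (C : ℝ) (hb : ∀ x, |h x| ≤ C) :
    ∫ x, h x ∂μ = (∫ x, h x ∂ν) / 2 + h p / 2 := by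
  unfold μ
  rw [integral_add_measure ((bdd_int ν h hm C hb).smul_measure (by simp))
    ((bdd_int _ h hm C hb).smul_measure (by simp)), integral_smul_measure, integral_smul_measure,
    integral_dirac' _ _ hm.stronglyMeasurable]
  simp; ring

noncomputable def φ (a : Fin 3) : ℝ := (a.val : ℝ) / 2

lemma φb (a : Fin 3) : 0 ≤ φ a ∧ φ a ≤ 1 := by
  fin_cases a <;> (simp [φ]; try norm_num)

lemma mφ : Measurable φ := measurable_of_finite _

lemma intν (ψ : Fin 3 → ℝ) (i : ℤ) : ∫ x, ψ (x i) ∂ν = ψ 0 / 2 + ψ 2 / 2 := by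
  have h2 : ν.map (fun ω : ℤ → Fin 3 => ω i) = ν0 := Measure.infinitePi_map_eval (fun _ => ν0) i
  rw [← integral_map (measurable_pi_apply i).aemeasurable (measurable_of_finite ψ).aestronglyMeasurable, h2]
  unfold ν0
  rw [integral_add_measure ((Integrable.of_finite (μ := Measure.dirac 0)).smul_measure (by simp))
    ((Integrable.of_finite (μ := Measure.dirac 2)).smul_measure (by simp)), integral_smul_measure,
    integral_smul_measure, integral_dirac, integral_dirac]
  simp; ring

theorem result : ∃ (X : Type) (_ : MeasurableSpace X) (m : Measure X) (S : X → X),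
    IsProbabilityMeasure m ∧ MeasurePreserving S m m ∧ Function.Bijective S ∧
    (∃ f : X → ℝ, MemLp f 2 m ∧ (∀ᵐ x ∂m, 0 ≤ f x ∧ f x ≤ 1) ∧ (¬ ∃ c : ℝ, ∀ᵐ x ∂m, f x = c) ∧
      ∀ n : ℕ, 1 ≤ n → ∫ x, f x * f (S^[n] x) ∂m ≤ (∫ x, f x ∂m) ^ 2) ∧
    ¬ ∃ A : Set X, MeasurableSet A ∧ 0 < m.real A ∧ m.real A < 1 ∧
      ∀ n : ℕ, 1 ≤ n → m.real (A ∩ S^[n] ⁻¹' A) ≤ (m.real A) ^ 2 := by
  have mf : ∀ i : ℤ, Measurable fun x : ℤ → Fin 3 => φ (x i) := fun i => mφ.comp (measurable_pi_apply i)
  have bf : ∀ a, |φ a| ≤ 1 := fun a => abs_le.2 ⟨by linarith [(φb a).1], (φb a).2⟩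
  have bff : ∀ a b, |φ a * φ b| ≤ 1 := fun a b => by
    rw [abs_mul]; exact mul_le_one₀ (bf _) (abs_nonneg _) (bf _)
  have i1 : ∫ x, φ (x 0) ∂μ = 1 / 2 := by
    rw [intμ _ (mf 0) 1 (fun x => bf _), intν φ 0]; simp [φ, p]; try norm_num
  refine ⟨ℤ → Fin 3, inferInstance, μ, T, inferInstance, mp, bijT, ⟨fun x => φ (x 0), ?_, ?_, ?_, ?_⟩, ?_⟩
  · exact MemLp.of_bound (mf 0).aestronglyMeasurable 1 (Filter.Eventually.of_forall fun x => by
      simpa [Real.norm_eq_abs] using bf _)
  · exact Filter.Eventually.of_forall fun x => φb _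
  · rintro ⟨c, hc⟩
    have i2 : ∫ x, φ (x 0) * φ (x 0) ∂μ = 3 / 8 := by
      rw [intμ (fun x => φ (x 0) * φ (x 0)) ((mf 0).mul (mf 0)) 1 (fun x => bff _ _), intν (fun a => φ a * φ a) 0]
      simp [φ, p]; norm_num
    rw [integral_congr_ae (g := fun _ => c) hc] at i1
    rw [integral_congr_ae (g := fun _ => c * c) (hc.mono fun x hx => by simp only at hx ⊢; rw [hx])] at i2
    simp at i1 i2
    rw [i1] at i2; norm_num at i2
  · intro n hn
    simp only [iter]
    rw [i1, intμ (fun x => φ (x 0) * φ (x (0 + n))) ((mf 0).mul (mf _)) 1 (fun x => bff _ _)]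
    have hi := (ind.indepFun (i := 0) (j := 0 + (n : ℤ)) (by omega)).comp mφ mφ
    have := hi.integral_fun_mul_eq_mul_integral (mf 0).aestronglyMeasurable (mf _).aestronglyMeasurable
    simp only [Function.comp_def] at this
    rw [this, intν φ, intν φ]
    simp [φ, p]; norm_num
  · rintro ⟨A, hA, h0, h1, hr⟩
    set a := μ.real A with ha
    let u : (ℤ → Fin 3) → ℝ := A.indicator 1
    have mu : Measurable u := measurable_one.indicator hA
    have hu : ∀ x, u x = 0 ∨ u x = 1 := fun x => by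
      by_cases h : x ∈ A <;> simp [u, h]
    have bu : ∀ x, |u x| ≤ 1 := fun x => by rcases hu x with h | h <;> simp [h]
    have bg : ∀ x, |u x - a| ≤ 1 := fun x => by
      rcases hu x with h | h <;> rw [h, abs_le] <;> constructor <;> linarith
    have hv := var_le μ T mp (fun x => u x - a) (mu.sub_const a) bg (by
      intro n hn
      have mn := (mp.iterate n).measurable
      have hB : MeasurableSet (T^[n] ⁻¹' A) := mn hA
      have e : ∀ x, (u x - a) * (u (T^[n] x) - a) =
          (A ∩ T^[n] ⁻¹' A).indicator 1 x - a * A.indicator 1 x - a * (T^[n] ⁻¹' A).indicator 1 x + a ^ 2 := by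
        intro x
        by_cases h : x ∈ A <;> by_cases h' : T^[n] x ∈ A <;> simp [u, h, h', Set.indicator] <;> ring
      simp_rw [e]
      have I : ∀ B : Set (ℤ → Fin 3), MeasurableSet B → Integrable (B.indicator (1 : (ℤ → Fin 3) → ℝ)) μ :=
        fun B hB => (integrable_const (1:ℝ)).indicator hB
      have J1 : Integrable (fun x => (A ∩ T^[n] ⁻¹' A).indicator (1 : (ℤ → Fin 3) → ℝ) x - a * A.indicator 1 x) μ :=
        (I _ (hA.inter hB)).sub ((I _ hA).const_mul a)
      have J2 : Integrable (fun x => (A ∩ T^[n] ⁻¹' A).indicator (1 : (ℤ → Fin 3) → ℝ) x - a * A.indicator 1 x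
          - a * (T^[n] ⁻¹' A).indicator 1 x) μ := J1.sub ((I _ hB).const_mul a)
      rw [integral_add J2 (integrable_const _),
        integral_sub J1 ((I _ hB).const_mul a),
        integral_sub (I _ (hA.inter hB)) ((I _ hA).const_mul a), integral_const_mul, integral_const_mul,
        integral_indicator_one (hA.inter hB), integral_indicator_one hA, integral_indicator_one hB]
      have : μ.real (T^[n] ⁻¹' A) = a := by
        rw [ha, Measure.real, Measure.real, (mp.iterate n).measure_preimage hA.nullMeasurableSet]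
      rw [this, ← ha]
      have := hr n hn
      simp only [integral_const, probReal_univ, smul_eq_mul]
      nlinarith)
    have hp : ∀ n, T^[n] p = p := fun n => by funext i; rw [iter]; rfl
    have hd : 0 < (u p - a) ^ 2 := by
      rcases hu p with h | h <;> rw [h] <;> apply sq_pos_of_ne_zero <;> linarith [h0, h1] 
    obtain ⟨N, hN⟩ := exists_nat_gt (2 / (u p - a) ^ 2)
    have hN0 : (0:ℝ) < N := lt_trans (by positivity) hN
    have h3 := hv N
    rw [intμ (fun x => (∑ i ∈ Finset.range N, (u (T^[i] x) - a)) ^ 2) ((Finset.measurable_sum _ fun i _ => (mu.sub_const a).comp (mp.iterate i).measurable).pow_const 2)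
      ((N:ℝ) ^ 2) (fun x => by
        rw [abs_pow]
        refine pow_le_pow_left₀ (abs_nonneg _) ?_ 2
        refine (Finset.abs_sum_le_sum_abs _ _).trans ?_
        simpa using Finset.sum_le_card_nsmul (Finset.range N) _ 1 fun i _ => bg (T^[i] x))] at h3
    have h4 : 0 ≤ ∫ x, (∑ i ∈ Finset.range N, (u (T^[i] x) - a)) ^ 2 ∂ν := integral_nonneg fun x => sq_nonneg _
    simp only [hp, Finset.sum_const, Finset.card_range, nsmul_eq_mul] at h3
    rw [div_lt_iff₀ hd] at hN
    nlinarith

end Pool.Agent.Results.MP_73c876_an.Atom
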